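import Mathlib
import Pool.Agent.Y215.SK.Defs
import Pool.Agent.W235.PR.Final

set_option autoImplicit false

/-! # Sums of elements of a group of finite rank on projective varieties: definitions -/

namespace Pool.Agent.R406.PU

open MvPolynomial IsDedekindDomain NumberField
open Pool.Agent.Helper259.AbsHt Pool.Agent.Y215.SK
open Pool.Agent.W235.PR (Pts)

variable {K : Type} [Field K] {ι κ : Type} {n : ℕ}

/-- `x` is a vector of homogeneous coordinates of a point of `V` outside `V'`. -/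
def OffP {L : Type} [Field L] [Algebra K L] (F : ι → MvPolynomial (Fin (n + 1)) (𝓞 K))
    (G : κ → MvPolynomial (Fin (n + 1)) (𝓞 K)) (x : Fin (n + 1) → L) : Prop :=
  x ≠ 0 ∧ (∀ i, eval₂ ((algebraMap K L).comp (algebraMap (𝓞 K) K)) x (F i) = 0) ∧
    ∃ l, eval₂ ((algebraMap K L).comp (algebraMap (𝓞 K) K)) x (G l) ≠ 0

/-- For every finitely generated group `Γ` of algebraic numbers, all points of `V` outside `V'`
with coordinates in `Qbar` with homogeneous coordinates `x = ∑ u_j V_j` satisfy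
`h(x) ≤ C (1 + h(V))`; here the `u_j` have a power in `Γ`, the vectors `V_j` over `Qbar` are
arbitrary and `h` is the absolute logarithmic height. -/
def HullHeights (F : ι → MvPolynomial (Fin (n + 1)) (𝓞 K))
    (G : κ → MvPolynomial (Fin (n + 1)) (𝓞 K)) : Prop :=
  ∀ [Algebra K Qbar] (r : ℕ) (Γ : Subgroup Qbarˣ), Γ.FG → ∃ C : ℝ,
    ∀ (u : Fin r → Qbarˣ) (V : Fin r → Fin (n + 1) → Qbar), (∀ j, u j ∈ DivHull Γ) →
      OffP F G (psum Finset.univ u V) →
      absLogHeight (psum Finset.univ u V) ≤ C * (1 + hV V)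

/-- For every finitely generated group `Γ` of algebraic numbers and every number field `L` in
`Qbar`, the `L`-rational points of `V` outside `V'` with homogeneous coordinates `∑ u_j V_j`, with
`u_j` with a power in `Γ` and vectors `V_j` over `Qbar` with `h(V) ≤ B`, are finite in number. -/
def HullRational (F : ι → MvPolynomial (Fin (n + 1)) (𝓞 K))
    (G : κ → MvPolynomial (Fin (n + 1)) (𝓞 K)) : Prop :=
  ∀ [Algebra K Qbar] (r : ℕ) (Γ : Subgroup Qbarˣ), Γ.FG →
    ∀ (L : Type) [Field L] [NumberField L] (φ : L →+* Qbar) (B : ℝ),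
      {P : Projectivization L (Fin (n + 1) → L) | ∃ (y : Fin (n + 1) → L) (hy : y ≠ 0),
        P = Projectivization.mk L y hy ∧ OffP F G (fun a => φ (y a)) ∧
        ∃ (u : Fin r → Qbarˣ) (V : Fin r → Fin (n + 1) → Qbar), (∀ j, u j ∈ DivHull Γ) ∧
          hV V ≤ B ∧ psum Finset.univ u V = fun a => φ (y a)}.Finite

/-- the points of `V` outside `V'` over `Qbar` with homogeneous coordinates `∑ u_j s_j V_j`, with
`u_j` with a power in `Γ` and `h(s) < ε` -/
def nearPts [Algebra K Qbar] (F : ι → MvPolynomial (Fin (n + 1)) (𝓞 K))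
    (G : κ → MvPolynomial (Fin (n + 1)) (𝓞 K)) {r : ℕ} (Γ : Subgroup Qbarˣ) (ε : ℝ)
    (V : Fin r → Fin (n + 1) → Qbar) : Set (Projectivization Qbar (Fin (n + 1) → Qbar)) :=
  {P | ∃ (u : Fin r → Qbarˣ) (s : Fin r → Qbar), (∀ j, u j ∈ DivHull Γ) ∧ absLogHeight s < ε ∧
    OffP F G (psum Finset.univ u (fun j a => s j * V j a)) ∧
    ∃ h : psum Finset.univ u (fun j a => s j * V j a) ≠ 0,
      P = Projectivization.mk Qbar (psum Finset.univ u (fun j a => s j * V j a)) h}

/-- For each `r` there is `ε > 0` such that for all finitely generated groups `Γ` of algebraic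
numbers and all vectors `V_1, …, V_r` over `Qbar` the points over `Qbar` as above are finite in
number, at most `A (1 + h(V)) ^ e`, where `A` and `e` depend on `Γ` but not on `V`. -/
def HullNear (F : ι → MvPolynomial (Fin (n + 1)) (𝓞 K))
    (G : κ → MvPolynomial (Fin (n + 1)) (𝓞 K)) : Prop :=
  ∀ r : ℕ, ∃ ε : ℝ, 0 < ε ∧ ∀ [Algebra K Qbar] (Γ : Subgroup Qbarˣ), Γ.FG →
    ∃ (A : ℝ) (e : ℕ), ∀ V : Fin r → Fin (n + 1) → Qbar, (nearPts F G Γ ε V).Finite ∧
      ((nearPts F G Γ ε V).ncard : ℝ) ≤ A * (1 + hV V) ^ e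

/-- `y` is a sum of at most `r` `S`-units of `L` -/
def UnitSum {L : Type} [Field L] [NumberField L] (S : Set (HeightOneSpectrum (𝓞 L))) (r : ℕ)
    (y : L) : Prop :=
  ∃ (J : Finset (Fin r)) (u : Fin r → Lˣ), (∀ j, u j ∈ S.unit L) ∧ y = ∑ j ∈ J, (u j : L)

/-- For every number field `L`, every finite set `S` of primes and every `r`, the points of `V`
outside `V'` over `L` with homogeneous coordinates which are sums of at most `r` `S`-units of `L`
are finite in number. -/
def UnitSumFinite (F : ι → MvPolynomial (Fin (n + 1)) (𝓞 K))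
    (G : κ → MvPolynomial (Fin (n + 1)) (𝓞 K)) : Prop :=
  ∀ (L : Type) [Field L] [NumberField L] [Algebra K L] (S : Set (HeightOneSpectrum (𝓞 L))),
    S.Finite → ∀ r : ℕ, {P | P ∈ Pts F G L ∧ ∃ (x : Fin (n + 1) → L) (h : x ≠ 0),
      P = Projectivization.mk L x h ∧ ∀ a, UnitSum S r (x a)}.Finite

end Pool.Agent.R406.PU
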