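import Mathlib
import Pool.Agent.R406.PU.Defs
import Pool.Agent.Y215.SK.FinC
import Pool.Agent.Y215.AF.Main

set_option autoImplicit false
set_option linter.unusedSectionVars false
set_option linter.unusedSimpArgs false

/-! # Sums of elements of a group of finite rank on projective varieties: height bound -/

namespace Pool.Agent.R406.PU

open Finset MvPolynomial IsDedekindDomain NumberField Height Module
open Pool.Agent.Helper259.AbsHt Pool.Agent.Y215.SK
open Pool.Agent.W235.PR (Pts HasCurve)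
open Pool.Agent.H533R3.SL (cur cur_eval_one)
open Pool.Agent.H159R3.Exp (Laur)
open Pool.Agent.Y215.SP (epsn epsn_pos)

variable {K : Type} [Field K] [NumberField K] {ι κ : Type} {n : ℕ}
  (F : ι → MvPolynomial (Fin (n + 1)) (𝓞 K)) (G : κ → MvPolynomial (Fin (n + 1)) (𝓞 K))

/-- the forms over the field -/
noncomputable def fK (p : MvPolynomial (Fin (n + 1)) (𝓞 K)) : MvPolynomial (Fin (n + 1)) K :=
  map (algebraMap (𝓞 K) K) p

theorem aeval_fK {M : Type} [CommRing M] [Algebra K M] (p : MvPolynomial (Fin (n + 1)) (𝓞 K))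
    (x : Fin (n + 1) → M) :
    aeval x (fK p) = eval₂ ((algebraMap K M).comp (algebraMap (𝓞 K) K)) x p := by
  unfold fK
  rw [aeval_def, eval₂_map]

theorem fK_hom {p : MvPolynomial (Fin (n + 1)) (𝓞 K)} {e : ℕ} (h : p.IsHomogeneous e) :
    (fK p).IsHomogeneous e := h.map _

theorem eval_aeval_poly {M : Type} [Field M] [Algebra K M] (q : Fin (n + 1) → Polynomial M)
    (P : MvPolynomial (Fin (n + 1)) K) (t : M) :
    aeval (fun j => (q j).eval t) P = (aeval q P : Polynomial M).eval t := by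
  have h1 : (aeval q P : Polynomial M).eval t =
      MvPolynomial.eval₂ ((Polynomial.evalRingHom t).comp (algebraMap K (Polynomial M)))
        (fun i => Polynomial.evalRingHom t (q i)) P := by
    rw [MvPolynomial.aeval_def]
    exact MvPolynomial.hom_eval₂ P _ (Polynomial.evalRingHom t) _
  rw [h1, MvPolynomial.aeval_def]
  congr 1
  refine RingHom.ext fun a => ?_
  show _ = Polynomial.eval t (algebraMap K (Polynomial M) a)
  rw [Polynomial.algebraMap_apply]
  show _ = Polynomial.eval t (Polynomial.C _)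
  rw [Polynomial.eval_C]

/-- a curve over any extension gives a curve over a number field -/
theorem hasCurve_of_cur {r : ℕ} (l0 : κ) (L : Type) [Field L] [Algebra K L]
    (c : Fin r → Fin (n + 1) → L) (l : Fin r → ℕ)
    (hz : ∀ i, aeval (cur c l) (fK (F i)) = 0)
    (hc : ∃ i i', cur c l i * Polynomial.C (∑ j, c j i') ≠
      cur c l i' * Polynomial.C (∑ j, c j i))
    (hG : aeval (fun i => ∑ j, c j i) (fK (G l0)) ≠ 0) : HasCurve F G := by
  classical
  obtain ⟨N, hN⟩ : ∃ N : ℕ, ∀ i m, N ≤ m → (cur c l i).coeff m = 0 := by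
    refine ⟨∑ i, (cur c l i).natDegree + 1, fun i m hm =>
      Polynomial.coeff_eq_zero_of_natDegree_lt ?_⟩
    have : (cur c l i).natDegree ≤ ∑ i, (cur c l i).natDegree :=
      Finset.single_le_sum (f := fun i => (cur c l i).natDegree) (fun _ _ => Nat.zero_le _)
        (Finset.mem_univ i)
    omega
  obtain ⟨M, iF, iN, iA, v, hv1, ⟨i1, i2, hv2⟩, hv3⟩ :=
    Pool.Agent.TH409.SH.specialise (n := n) K L (cur c l) (Set.range fun i => fK (F i))
      (by
        rintro _ ⟨i, rfl⟩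
        exact hz i) N hN (by
        obtain ⟨i, i', h⟩ := hc
        refine ⟨i, i', ?_⟩
        rw [cur_eval_one, cur_eval_one]
        exact h) (fK (G l0)) (by
        have e : (fun i => (cur c l i).eval 1) = fun i => ∑ j, c j i := by
          funext i
          rw [cur_eval_one]
        rw [e]
        exact hG)
  obtain ⟨q, hq⟩ : ∃ q : Fin (n + 1) → Polynomial M, q = cur v (fun j => (j : ℕ)) := ⟨_, rfl⟩
  rw [← hq] at hv1 hv2 hv3
  refine ⟨M, iF, iN, iA, fun t j => (q j).eval t, fun j => Laur.poly _, fun i t _ => ?_,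
    ⟨l0, ?_⟩, ?_⟩
  · rw [← aeval_fK, eval_aeval_poly, hv1 _ ⟨i, rfl⟩, Polynomial.eval_zero]
  · rw [← aeval_fK]
    exact hv3
  · by_contra hcon
    push Not at hcon
    apply hv2
    rw [← sub_eq_zero]
    by_contra hne
    have h2 := Polynomial.finite_setOfPred_isRoot hne
    have h3 : Function.Injective fun m : ℕ => (2 : M) ^ m := by
      intro a b hab
      have h5 : ((2 ^ a : ℕ) : M) = ((2 ^ b : ℕ) : M) := by
        push_cast
        exact hab
      exact Nat.pow_right_injective (le_refl 2) (Nat.cast_injective h5)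
    apply Set.infinite_range_of_injective h3
    refine h2.subset ?_
    rintro _ ⟨k, rfl⟩
    have h5 := hcon k i1 i2
    simp only [Set.mem_ofPred_eq, Polynomial.IsRoot.def, Polynomial.eval_sub,
      Polynomial.eval_mul, Polynomial.eval_C]
    rw [h5, sub_self]

/-- finitely many equations for `V'` -/
theorem fin_kappa : ∃ s : Finset κ, ∀ (L : Type) [Field L] [Algebra K L] (x : Fin (n + 1) → L),
    (∃ l, eval₂ ((algebraMap K L).comp (algebraMap (𝓞 K) K)) x (G l) ≠ 0) →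
    ∃ l ∈ s, eval₂ ((algebraMap K L).comp (algebraMap (𝓞 K) K)) x (G l) ≠ 0 :=
  Pool.Agent.Y215.AF.fin_kappa G

variable [Finite ι]

theorem hull_one (hF : ∀ i, ∃ e, (F i).IsHomogeneous e) (hG : ∀ l, ∃ e, (G l).IsHomogeneous e)
    (hn : ¬ HasCurve F G) (l0 : κ) [Algebra K Qbar] (r : ℕ) (Γ : Subgroup Qbarˣ)
    (hΓ : Γ.FG) : ∃ C : ℝ, 0 ≤ C ∧
    ∀ (u : Fin r → Qbarˣ) (V : Fin r → Fin (n + 1) → Qbar), (∀ j, u j ∈ DivHull Γ) →
      psum Finset.univ u V ≠ 0 →
      (∀ i, eval₂ ((algebraMap K Qbar).comp (algebraMap (𝓞 K) K))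
        (psum Finset.univ u V) (F i) = 0) →
      eval₂ ((algebraMap K Qbar).comp (algebraMap (𝓞 K) K))
        (psum Finset.univ u V) (G l0) ≠ 0 →
      absLogHeight (psum Finset.univ u V) ≤ C * (1 + hV V) := by
  classical
  have := Fintype.ofFinite ι
  let e : Fin (Fintype.card ι) ≃ ι := (Fintype.equivFin ι).symm
  obtain ⟨C, hC⟩ := mult_bound (r := r) (fun i => fK (F (e i)))
    (fun i => (hF (e i)).imp fun _ h => fK_hom h) (fK (G l0)) ((hG l0).imp fun _ h => fK_hom h)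
    (fun L _ _ c l hz hc => by
      by_contra hne
      refine hn (hasCurve_of_cur F G l0 L c l (fun i => ?_) hc hne)
      have := hz (e.symm i)
      rwa [Equiv.apply_symm_apply] at this) Γ hΓ
  refine ⟨|C| + r + 1, by positivity, fun u V hu h0 h1 h2 => ?_⟩
  have hon : OnOff (fun i => fK (F (e i))) (fK (G l0)) (psum Finset.univ u V) :=
    ⟨h0, fun i => by rw [aeval_fK]; exact h1 _, by rw [aeval_fK]; exact h2⟩
  obtain ⟨J, hJ, hh⟩ := hC u V hu hon
  obtain ⟨c, hc, hc2⟩ := good_prop J u V hJ hon.1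
  have h3 := psum_height J u V
  rw [hc2, absLogHeight_smul _ hc] at h3
  have h6 : 0 ≤ hV V := absLogHeight_nonneg _
  have h7 : C * (1 + hV V) ≤ |C| * (1 + hV V) :=
    mul_le_mul_of_nonneg_right (le_abs_self C) (by linarith)
  have h8 : (0 : ℝ) ≤ r := Nat.cast_nonneg r
  nlinarith [mul_nonneg h8 h6]

theorem hullHeights (hF : ∀ i, ∃ e, (F i).IsHomogeneous e)
    (hG : ∀ l, ∃ e, (G l).IsHomogeneous e) (hn : ¬ HasCurve F G) : HullHeights F G := by
  classical
  intro _ r Γ hΓ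
  obtain ⟨s, hs⟩ := fin_kappa G
  choose C hC0 hC using fun l : κ => hull_one F G hF hG hn l r Γ hΓ
  refine ⟨∑ l ∈ s, C l, fun u V hu hx => ?_⟩
  obtain ⟨l, hl, h2⟩ := hs Qbar _ hx.2.2
  refine (hC l u V hu hx.1 hx.2.1 h2).trans ?_
  have h9 : 0 ≤ hV V := absLogHeight_nonneg _
  exact mul_le_mul_of_nonneg_right (Finset.single_le_sum (f := C) (fun l _ => hC0 l) hl)
    (by linarith)

theorem near_one (hG : ∀ l, ∃ e, (G l).IsHomogeneous e)
    (hn : ¬ HasCurve F G) (l0 : κ) (d : ℕ) (hd1 : 1 ≤ d)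
    (hd : ∀ i, ∃ e, e ≤ d ∧ (F i).IsHomogeneous e) [Algebra K Qbar] (r : ℕ) (Γ : Subgroup Qbarˣ)
    (hΓ : Γ.FG) : ∃ (A : ℝ) (e : ℕ), 0 ≤ A ∧ ∀ V : Fin r → Fin (n + 1) → Qbar,
      (nearPts F (fun _ : Unit => G l0) Γ (epsn ((d + 1) ^ r) / d / 2) V).Finite ∧
        ((nearPts F (fun _ : Unit => G l0) Γ (epsn ((d + 1) ^ r) / d / 2) V).ncard : ℝ) ≤
          A * (1 + hV V) ^ e := by
  classical
  have := Fintype.ofFinite ι
  let e : Fin (Fintype.card ι) ≃ ι := (Fintype.equivFin ι).symm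
  obtain ⟨A, m, hA⟩ := mix_finite (r := r) (fun i => fK (F (e i))) d hd1
    (fun i => (hd (e i)).imp fun _ h => ⟨h.1, fK_hom h.2⟩)
    (fK (G l0)) ((hG l0).imp fun _ h => fK_hom h)
    (fun L _ _ c l hz hc => by
      by_contra hne
      refine hn (hasCurve_of_cur F G l0 L c l (fun i => ?_) hc hne)
      have := hz (e.symm i)
      rwa [Equiv.apply_symm_apply] at this) Γ hΓ
  refine ⟨|A|, m, abs_nonneg _, fun V => ?_⟩
  obtain ⟨hfin, hcard⟩ := hA V
  have hsub : nearPts F (fun _ : Unit => G l0) Γ (epsn ((d + 1) ^ r) / d / 2) V ⊆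
      mixPts (fun i => fK (F (e i))) (fK (G l0)) Γ (epsn ((d + 1) ^ r) / d / 2) V := by
    rintro P ⟨u, s, hu, hs, ⟨h0, h1, _, h2⟩, h, hP⟩
    exact ⟨u, s, hu, hs, ⟨h0, fun i => by rw [aeval_fK]; exact h1 _, by rw [aeval_fK]; exact h2⟩,
      h, hP⟩
  refine ⟨hfin.subset hsub, ?_⟩
  have h1 := Set.ncard_le_ncard hsub hfin
  have h2 : ((nearPts F (fun _ : Unit => G l0) Γ (epsn ((d + 1) ^ r) / d / 2) V).ncard : ℝ) ≤
      A * (1 + hV V) ^ m := le_trans (by exact_mod_cast h1) hcard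
  refine h2.trans ?_
  have h3 : 0 ≤ hV V := absLogHeight_nonneg _
  exact mul_le_mul_of_nonneg_right (le_abs_self A) (by positivity)

theorem hullNear (hF : ∀ i, ∃ e, (F i).IsHomogeneous e)
    (hG : ∀ l, ∃ e, (G l).IsHomogeneous e) (hn : ¬ HasCurve F G) : HullNear F G := by
  classical
  have := Fintype.ofFinite ι
  choose e he using hF
  obtain ⟨d, hd1, hd⟩ : ∃ d : ℕ, 1 ≤ d ∧ ∀ i, ∃ e, e ≤ d ∧ (F i).IsHomogeneous e :=
    ⟨∑ i, e i + 1, by omega, fun i => ⟨e i, by
      have := Finset.single_le_sum (f := e) (fun _ _ => Nat.zero_le _) (Finset.mem_univ i)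
      omega, he i⟩⟩
  intro r
  refine ⟨epsn ((d + 1) ^ r) / d / 2, half_pos (div_pos (epsn_pos _ (Nat.one_le_pow _ _
    (by omega))) (by exact_mod_cast hd1)), ?_⟩
  intro _ Γ hΓ
  obtain ⟨s, hs⟩ := fin_kappa G
  choose A e hA0 hA using fun l : κ => near_one F G hG hn l d hd1 hd r Γ hΓ
  refine ⟨∑ l ∈ s, A l, s.sup e, fun V => ?_⟩
  have hsub : nearPts F G Γ (epsn ((d + 1) ^ r) / d / 2) V ⊆
      ⋃ l ∈ s, nearPts F (fun _ : Unit => G l) Γ (epsn ((d + 1) ^ r) / d / 2) V := by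
    rintro P ⟨u, t, hu, ht, ⟨h0, h1, h2⟩, h, hP⟩
    obtain ⟨l, hl, h4⟩ := hs Qbar _ h2
    rw [Set.mem_iUnion₂]
    exact ⟨l, hl, u, t, hu, ht, ⟨h0, h1, (), h4⟩, h, hP⟩
  have hfin : (⋃ l ∈ s, nearPts F (fun _ : Unit => G l) Γ (epsn ((d + 1) ^ r) / d / 2) V).Finite :=
    Set.Finite.biUnion s.finite_toSet fun l _ => (hA l V).1
  refine ⟨hfin.subset hsub, ?_⟩
  have h1 : (nearPts F G Γ (epsn ((d + 1) ^ r) / d / 2) V).ncard ≤
      ∑ l ∈ s, (nearPts F (fun _ : Unit => G l) Γ (epsn ((d + 1) ^ r) / d / 2) V).ncard :=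
    (Set.ncard_le_ncard hsub hfin).trans (Finset.set_ncard_biUnion_le s _)
  have h2 : ((nearPts F G Γ (epsn ((d + 1) ^ r) / d / 2) V).ncard : ℝ) ≤
      ∑ l ∈ s, ((nearPts F (fun _ : Unit => G l) Γ (epsn ((d + 1) ^ r) / d / 2) V).ncard : ℝ) := by
    exact_mod_cast h1
  refine h2.trans ?_
  rw [Finset.sum_mul]
  refine Finset.sum_le_sum fun l hl => (hA l V).2.trans ?_
  have h9 : 0 ≤ hV V := absLogHeight_nonneg _
  exact mul_le_mul_of_nonneg_left
    (pow_le_pow_right₀ (by linarith) (Finset.le_sup hl)) (hA0 l)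

end Pool.Agent.R406.PU
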