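import Mathlib
import Pool.Agent.R406.PU.Hts

set_option autoImplicit false
set_option linter.unusedSectionVars false
set_option linter.unusedSimpArgs false

/-! # Sums of units on projective varieties: the equivalence -/

namespace Pool.Agent.R406.PU

open Finset MvPolynomial IsDedekindDomain NumberField Height Module
open Pool.Agent.Helper259.AbsHt Pool.Agent.Y215.SK
open Pool.Agent.W235.PR
open Pool.Agent.H533R3.SL (cur cur_eval_one)
open Pool.Agent.H159R3.Exp (Laur)
open Pool.Agent.Y215.AF (SU SU_fg unit_vectors sub_hull exists_emb hA hA_zero_one)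

variable {K : Type} [Field K] [NumberField K] {ι κ : Type} {n : ℕ}
  (σ : K →+* ℂ) (F : ι → MvPolynomial (Fin (n + 1)) (𝓞 K))
  (G : κ → MvPolynomial (Fin (n + 1)) (𝓞 K))

theorem rational_of_heights (h : HullHeights F G) : HullRational F G := by
  intro _ r Γ hΓ L _ _ φ B
  obtain ⟨C, hC⟩ := h r Γ hΓ
  refine (northcott_proj L φ (|C| * (1 + B))).subset ?_
  rintro P ⟨y, hy, rfl, hoff, u, V, hu, hV', hps⟩
  refine ⟨y, hy, rfl, ?_⟩
  rw [← hps] at hoff ⊢
  refine (hC u V hu hoff).trans ?_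
  have h9 : 0 ≤ hV V := absLogHeight_nonneg _
  exact mul_le_mul (le_abs_self C) (by linarith) (by linarith) (abs_nonneg _)

theorem offP_map {L M : Type} [Field L] [Field M] [Algebra K L] (φ : L →+* M)
    (x : Fin (n + 1) → L) (hx : OffP F G x) :
    letI : Algebra K M := (φ.comp (algebraMap K L)).toAlgebra
    OffP F G (fun a => φ (x a)) := by
  let _ : Algebra K M := (φ.comp (algebraMap K L)).toAlgebra
  have h : ∀ p : MvPolynomial (Fin (n + 1)) (𝓞 K),
      eval₂ ((algebraMap K M).comp (algebraMap (𝓞 K) K)) (fun a => φ (x a)) p =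
        φ (eval₂ ((algebraMap K L).comp (algebraMap (𝓞 K) K)) x p) := by
    intro p
    rw [MvPolynomial.hom_eval₂]
    rfl
  refine ⟨fun h0 => hx.1 (funext fun a => ?_), fun i => ?_, ?_⟩
  · exact (map_eq_zero φ).1 (congrFun h0 a)
  · rw [h, hx.2.1, map_zero]
  · obtain ⟨l, hl⟩ := hx.2.2
    refine ⟨l, ?_⟩
    rw [h]
    exact (map_ne_zero φ).2 hl

/-- vectors of zeros and ones -/
theorem ht_zero_one {τ : Type} [Finite τ] (x : τ → Qbar) (h : ∀ a, x a = 0 ∨ x a = 1) :
    absLogHeight x = 0 := by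
  refine le_antisymm ?_ (absLogHeight_nonneg _)
  rw [← hA_zero_one x h]
  exact absLogHeight_comp_le (fun a : τ => (some a : Option τ))
    (fun o : Option τ => o.elim (1 : Qbar) x)

theorem unitSum_of_rational (hF : ∀ i, ∃ e, (F i).IsHomogeneous e)
    (hG : ∀ l, ∃ e, (G l).IsHomogeneous e) (h : HullRational F G) : UnitSumFinite F G := by
  classical
  intro L _ _ _ S hS r
  obtain ⟨φ⟩ := exists_emb L
  let _ : Algebra K Qbar := (φ.comp (algebraMap K L)).toAlgebra
  refine (h ((n + 1) * r) (SU φ S) (SU_fg φ S hS) L φ 0).subset ?_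
  rintro P ⟨hP, x, hx, rfl, hsum⟩
  rw [mem_pts F G hF hG] at hP
  refine ⟨x, hx, rfl, offP_map F G φ x ⟨hx, hP.1, hP.2⟩, ?_⟩
  obtain ⟨u, s, h1, h2, h3⟩ := unit_vectors φ S r x hsum
  refine ⟨u, fun j a => s j * (if (finProdFinEquiv.symm j).1 = a then (1 : Qbar) else 0),
    fun j => sub_hull _ _ (h1 j), ?_, ?_⟩
  · refine le_of_eq (ht_zero_one _ fun p => ?_)
    rcases h2 p.1 with h4 | h4
    · left
      show s p.1 * _ = 0
      rw [h4, zero_mul]
    · show s p.1 * _ = 0 ∨ s p.1 * _ = 1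
      rw [h4, one_mul]
      split_ifs
      · exact Or.inr rfl
      · exact Or.inl rfl
  · funext a
    show ∑ j, _ = _
    rw [h3 a]
    exact Finset.sum_congr rfl fun j _ => by ring

theorem unitSum_of_near (hF : ∀ i, ∃ e, (F i).IsHomogeneous e)
    (hG : ∀ l, ∃ e, (G l).IsHomogeneous e) (h : HullNear F G) : UnitSumFinite F G := by
  classical
  intro L _ _ _ S hS r
  obtain ⟨φ⟩ := exists_emb L
  let _ : Algebra K Qbar := (φ.comp (algebraMap K L)).toAlgebra
  obtain ⟨ε, hε, h'⟩ := h ((n + 1) * r)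
  obtain ⟨A, e, hA⟩ := h' (SU φ S) (SU_fg φ S hS)
  obtain ⟨hfin, -⟩ := hA (fun j a => if (finProdFinEquiv.symm j).1 = a then (1 : Qbar) else 0)
  have hne : ∀ x : Fin (n + 1) → L, x ≠ 0 → (fun a => φ (x a)) ≠ 0 := by
    intro x hx h0
    exact hx (funext fun a => (map_eq_zero φ).1 (congrFun h0 a))
  refine Set.Finite.of_injOn (f := fun P : Projectivization L (Fin (n + 1) → L) =>
    Projectivization.mk Qbar (fun a => φ (P.rep a)) (hne _ P.rep_nonzero)) ?_ ?_ hfin
  · rintro P ⟨hP, x, hx, rfl, hsum⟩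
    rw [mem_pts F G hF hG] at hP
    obtain ⟨u, s, h1, h2, h3⟩ := unit_vectors φ S r x hsum
    have e1 : psum Finset.univ u (fun j a => s j *
        (if (finProdFinEquiv.symm j).1 = a then (1 : Qbar) else 0)) = fun a => φ (x a) := by
      funext a
      show ∑ j, _ = _
      rw [h3 a]
      exact Finset.sum_congr rfl fun j _ => by ring
    refine ⟨u, s, fun j => sub_hull _ _ (h1 j), ?_, ?_, ?_, ?_⟩
    · rw [ht_zero_one s h2]
      exact hε
    · rw [e1]
      exact offP_map F G φ x ⟨hx, hP.1, hP.2⟩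
    · rw [e1]
      exact hne x hx
    · obtain ⟨a, ha⟩ := Projectivization.exists_smul_eq_mk_rep L x hx
      rw [mk_eq_iff]
      intro i j
      rw [e1, ← ha]
      show φ ((a : L) * x i) * φ (x j) = φ ((a : L) * x j) * φ (x i)
      rw [map_mul, map_mul]
      ring
  · intro P _ Q _ hPQ
    have h1 := (mk_eq_iff _ _ _ _).1 hPQ
    rw [← P.mk_rep, ← Q.mk_rep, mk_eq_iff]
    intro i j
    apply φ.injective
    rw [map_mul, map_mul]
    exact h1 i j

theorem not_unitSum (hF : ∀ i, ∃ e, (F i).IsHomogeneous e)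
    (hG : ∀ l, ∃ e, (G l).IsHomogeneous e) (h : HasCurve F G) : ¬ UnitSumFinite F G := by
  classical
  obtain ⟨L, _, _, _, v, hv, hvF, hvG, hne⟩ := h
  intro hU
  obtain ⟨e, Q, hQ⟩ := Laur.common v hv
  let S : Set (HeightOneSpectrum (𝓞 L)) :=
    (⋃ j, ⋃ l ∈ (Q j).support, (HeightOneSpectrum.Support (𝓞 L) ((Q j).coeff l) ∪
      HeightOneSpectrum.Support (𝓞 L) (((Q j).coeff l)⁻¹))) ∪
      HeightOneSpectrum.Support (𝓞 L) (2⁻¹ : L)
  have hS : S.Finite := by
    refine Set.Finite.union (Set.finite_iUnion fun j => ?_) (HeightOneSpectrum.Support.finite _ _)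
    exact Set.Finite.biUnion (Finset.finite_toSet _) fun l _ =>
      (HeightOneSpectrum.Support.finite _ _).union (HeightOneSpectrum.Support.finite _ _)
  have hmem : ∀ x : Lˣ, HeightOneSpectrum.Support (𝓞 L) (x : L) ⊆ S →
      HeightOneSpectrum.Support (𝓞 L) ((x : L)⁻¹) ⊆ S → x ∈ S.unit L := by
    intro x hx hx' v hv
    have h1 : v.valuation L (x : L) ≤ 1 := by
      by_contra hcon
      exact hv (hx (not_le.mp hcon))
    have h2 : v.valuation L ((x : L)⁻¹) ≤ 1 := by
      by_contra hcon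
      exact hv (hx' (not_le.mp hcon))
    refine le_antisymm h1 ?_
    rw [map_inv₀] at h2
    have h3 : v.valuation L (x : L) ≠ 0 := (Valuation.ne_zero_iff _).2 x.ne_zero
    exact (inv_le_one₀ (zero_lt_iff.2 h3)).1 h2
  have h20 : (2 : L) ≠ 0 := two_ne_zero
  have h2S : Units.mk0 (2 : L) h20 ∈ S.unit L := by
    refine hmem _ ?_ ?_
    · intro v hv
      exfalso
      have h1 : (1 : WithZero (Multiplicative ℤ)) < v.valuation L (2 : L) := hv
      have h2 : v.valuation L (2 : L) ≤ 1 := by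
        have h3 : v.valuation L (algebraMap (𝓞 L) L 2) ≤ 1 := v.valuation_le_one (2 : 𝓞 L)
        have h4 : algebraMap (𝓞 L) L 2 = 2 := map_ofNat _ _
        rwa [h4] at h3
      exact absurd h1 (not_lt.2 h2)
    · intro v hv
      exact Or.inr hv
  obtain ⟨D, hD⟩ : ∃ D : ℕ, ∀ j, (Q j).natDegree < D := by
    refine ⟨∑ j, (Q j).natDegree + 1, fun j => ?_⟩
    have := Finset.single_le_sum (f := fun j => (Q j).natDegree) (fun _ _ => Nat.zero_le _)
      (Finset.mem_univ j)
    omega
  have hsum : ∀ (k : ℕ) a, UnitSum S D (v (2 ^ k) a) := by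
    intro k a
    refine ⟨Finset.univ.filter fun i : Fin D => (Q a).coeff i ≠ 0, fun i =>
      if h : (Q a).coeff i ≠ 0 then Units.mk0 ((Q a).coeff i) h *
        ((Units.mk0 (2 : L) h20) ^ (k * (i : ℕ)) * ((Units.mk0 (2 : L) h20) ^ (k * e))⁻¹) else 1,
      fun i => ?_, ?_⟩
    · by_cases h : (Q a).coeff i ≠ 0
      · simp only [dif_pos h]
        refine (S.unit L).mul_mem (hmem _ ?_ ?_) ((S.unit L).mul_mem
          ((S.unit L).pow_mem h2S _) ((S.unit L).inv_mem ((S.unit L).pow_mem h2S _)))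
        · intro w hw
          exact Or.inl (Set.mem_iUnion.2 ⟨a, Set.mem_biUnion (Polynomial.mem_support_iff.2 h)
            (Or.inl hw)⟩)
        · intro w hw
          exact Or.inl (Set.mem_iUnion.2 ⟨a, Set.mem_biUnion (Polynomial.mem_support_iff.2 h)
            (Or.inr hw)⟩)
      · simp only [dif_neg h]
        exact (S.unit L).one_mem
    · rw [hQ _ (pow_ne_zero _ h20) a, Polynomial.eval_eq_sum_range' (hD a), Finset.sum_range,
        Finset.sum_div, Finset.sum_filter]
      refine Finset.sum_congr rfl fun i _ => ?_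
      by_cases h : (Q a).coeff i ≠ 0
      · rw [if_pos h]
        simp only [dif_pos h]
        simp only [Units.val_mul, Units.val_mk0, Units.val_pow_eq_pow_val, Units.val_inv_eq_inv_val]
        rw [← pow_mul, ← pow_mul, div_eq_mul_inv, mul_assoc]
      · rw [if_neg h]
        have h' : (Q a).coeff i = 0 := not_not.1 h
        rw [h', zero_mul, zero_div]
  have hfin := hU L S hS D
  refine infinite_points F G hF hG L v hv hvF hvG hne 2 le_rfl (hfin.subset ?_)
  rintro P ⟨hP, k, hk, hPk⟩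
  have h2 : v (((2 : ℕ) : L) ^ k) = v ((2 : L) ^ k) := by
    norm_num
  refine ⟨hP, v (((2 : ℕ) : L) ^ k), hk, hPk, fun a => ?_⟩
  rw [h2]
  exact hsum k a

/-- **the equivalence** -/
theorem tfaeU [Finite ι] (hF : ∀ i, ∃ e, (F i).IsHomogeneous e)
    (hG : ∀ l, ∃ e, (G l).IsHomogeneous e) :
    List.TFAE [ExpCurvesIn σ F G, RatCurvesIn σ F G, HullHeights F G,
      HullRational F G, HullNear F G, UnitSumFinite F G] := by
  have h0 := tfae σ F G hF hG
  tfae_have 1 ↔ 2 := h0.out 0 1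
  tfae_have 2 → 3 := fun h => hullHeights F G hF hG fun h2 => not_rat_of_hasCurve σ F G hF h2 h
  tfae_have 2 → 5 := fun h => hullNear F G hF hG fun h2 => not_rat_of_hasCurve σ F G hF h2 h
  tfae_have 3 → 4 := rational_of_heights F G
  tfae_have 4 → 6 := unitSum_of_rational F G hF hG
  tfae_have 5 → 6 := unitSum_of_near F G hF hG
  tfae_have 6 → 1 := fun h => by
    by_contra h2
    exact not_unitSum F G hF hG (hasCurve_of_exp F G σ h2) h
  tfae_finish

end Pool.Agent.R406.PU
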